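import Pool.Agent.X180.OT.Pairs

/-!
# Abundance for klt pairs over orbifold towers over arbitrary subvarieties of projective space

Let `(X, Δ)` be a projective pair, `Γ` an effective `ℚ`-divisor such that `K_X + Δ - Γ` is
pseudo-effective, and

  `X ⇢ W_l ⇢ ... ⇢ W_1 ⇢ W_0 ⊂ P^v`, `l ≥ 0`,

dominant rational maps, where `W_0`, of dimension `≥ 1`, is any subvariety of `P^v`. A prime divisor
of `X` is *negligible* if it is in the support of `Γ`, or in the base locus of all
`m (K_X + Δ + η A)`, for small `η ≥ 0` (`A` an effective divisor). Suppose: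

* (the base) there are `q > (v + Q).choose v` general hyperplanes in `P^v`, and `m ≥ 2` such that
  `2 v m ≤ Q (m - 1)` (for instance `Q = 4 v` and `m = 2`), and for each prime divisor `P` of `X`
  which is not negligible the multiplicity of each of the hyperplanes at `P` (for the divisors
  without fixed component which the map `X ⇢ P^v` defines) is `0` or at least `m (1 - Δ P)`; so
  nothing is supposed at the components of `Δ` with coefficient `1`, and if `Δ = 0` then the fibres
  over the hyperplane sections of `W_0` have no components of multiplicity less than `m`;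
* (the steps of the tower) for each `i < l` the fibres of `W_{i+1}` over `W_i`, *with the boundary
  `Δ` and the multiplicities of the fibres of `X` over `W_{i+1}`*, correspond to moving log canonical
  arrangements of log general type: there is a variety `X'` with a generically finite map `X' ⇢ X`
  (ramified anywhere) and a rational map over `W_i` of `X'` to a relative product of projective spaces
  `P^{r_1} × ... × P^{r_c}`, `r_j ≥ 1`, whose fibres are, up to finite maps, the fibres of
  `X' ⇢ W_{i+1}`; in each `P^{r_j}` there are any hyperplanes `A j k = 0`, in any position, which move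
  with the point of a variety finite over `W_i`, with weights `w j k ≥ 0`, such that the arrangement
  is log canonical (the sum of the weights of hyperplanes with a common point is at most the
  codimension of their intersection) and `∑ k, w j k > r_j + 1`. If `Q` is a place of the function
  field of `X'` over a prime divisor `P` of `X`, not negligible, which dominates `W_i` but not
  `W_{i+1}`, with ramification index `ε`, and `e j k` are the multiplicities of the hyperplanes at
  `Q`, not all zero, then `ε (1 - Δ P) ≤ ∑ (mx_j - ∑ w j k e j k)`, where `mx_j` is the greatest sum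
  of `r_j + 1` of the `e j k` whose hyperplanes have no common point (`ε (1 - Δ P) ≤ 1`, if all
  `e j k` are zero). For instance, if `W_{i+1}` is a projective bundle over `W_i`, and the hyperplanes
  are in general position, this means that the components `P` of the fibres of `X` over the
  hyperplane `A j k = 0` have multiplicity at least `(1 - Δ P) / (1 - w j k)`;
* (the fibres of `X` over `W_l`, of any log Kodaira dimension) there is a correspondence `X'` as above
  between `X` and a relative product `P^{r_1} × ... × P^{r_c}` over `W_l`, with log canonical moving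
  hyperplane arrangements with weights in `[0, 1]` (with any sum) and the same condition at the prime
  divisors of `X`, not negligible, which dominate `W_l`; and at the places over the prime divisors of
  the product `K_X + Δ` is at most the pull back of the log canonical divisor of the arrangement
  (`Cor`).

Then `∑ k, w j k ≥ r_j + 1` for all `j` (for the fibres over `W_l`), and

  `κ(K_X + Δ') = ν(K_X + Δ') = dim W_l + λ`

for all `Δ'` which are equal to `Δ` outside of `Γ` and larger than `Δ - Γ` along `Γ`, where `λ` is the
sum of the `r_j` with `∑ k, w j k > r_j + 1`. By Kawamata's theorem (for klt pairs), if `(X, Δ)` is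
klt and `K_X + Δ` is nef, then `K_X + Δ` is semiample. (`Γ = 0` is allowed.)

Notation: `X` is given by the homogeneous coordinates `y` of its generic point, with values in the
function field `K`; prime divisors are places `P` of `K`, `P.ord` is the order along `P`;
`OrdData P ℓ b a μ`: the order of `ℓ i (b)` is `a + μ i`, where `a` is the minimum of the orders of
the `b j`. `E i` is the function field of `W_i`. Definitions: `Pool/Agent/X180/OT/Defs`.

Proof: for a step `Z' → Z` of the tower the products of determinants of logarithmic derivatives of the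
linear forms are forms of degree `dim Z' - dim Z` along the fibres; their norms are estimated at the
prime divisors of `X` (`Pool.Agent.X180.Orb`), and are multiplied with adapted regular vector fields,
and with Wronskians of hyperplane sections of `W_0` (`Pool.Agent.Y191.general_fib`). For the upper
bound, sections of `m (K_X + Δ) + A` are pulled back to `X'`; their traces are polynomials of bounded
degree in the coordinates of the factors with `∑ k, w j k = r_j + 1`.
-/

set_option autoImplicit false

open FF Pool.Agent.W602.GT Pool.Agent.Y172 Pool.Agent.Y191 Pool.Agent.X180.OT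
open Pool.Agent.X327.MA (IsPair PseudoEffective Negligible Fibres Abundance)

namespace Pool.Agent.Results.MP_9a2ae6_ag.OrbifoldTowerPairs

/-- The prime divisors of `X` which are not negligible. -/
def Relevant {K : Type} [Field K] [Algebra ℂ K] {N : ℕ} (y : Fin (N + 1) → K) (n : ℕ)
    (Δ Γ A : Place ℂ K → ℚ) : Set (Place ℂ K) :=
  {P | IsPrimeDivisor y P ∧ ¬ Negligible y n Δ Γ A P}

/-- The multiplicities of the hyperplanes `ℓ i` at the prime divisors `P ∈ S` are `0` or at least
`m (1 - Δ P)`. -/
def HyperplaneMultiplicities {K : Type} [Field K] [Algebra ℂ K] {v q : ℕ} (S : Set (Place ℂ K))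
    (Δ : Place ℂ K → ℚ) (ℓ : Fin q → Fin (v + 1) → ℂ) (b : Fin (v + 1) → K) (m : ℕ) : Prop :=
  ∀ P ∈ S, ∀ (a : ℤ) (μ : Fin q → ℕ), OrdData P ℓ b a μ →
    ∀ i, μ i = 0 ∨ (m : ℚ) * (1 - Δ P) ≤ μ i

/-- **Abundance.** Let `m ≥ 2`, `2 * v * m ≤ Q * (m - 1)` and `(v + Q).choose v < q`. For `q` general
hyperplanes in `P^v` (some polynomial `Ψ` does not vanish at the coefficients) the following holds.
Let `(X, Δ)` be a projective pair, `Γ` and `A` effective `ℚ`-divisors such that `K_X + Δ - Γ` is
pseudo-effective (tested with `A`), `b` the coordinates of a rational map `X ⇢ P^v` whose image is the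
bottom `W_0`, of dimension `≥ 1`, of an orbifold tower `X ⇢ W_l ⇢ ... ⇢ W_0` whose steps are of log
general type, and let the multiplicities of the hyperplanes at the relevant prime divisors `P` of `X`
be `0` or at least `m (1 - Δ P)`. Let the fibres of `X` over `W_l` be as in `Fibres`. Then
`r j + 1 ≤ ∑ i, w j i` for all `j`, and the Kodaira dimension and the numerical dimension of
`K_X + Δ'` are `dim W_l` plus the sum of the `r j` with `r j + 1 < ∑ i, w j i`, for all `Δ'` which are
equal to `Δ` outside of `Γ` and larger than `Δ - Γ` along `Γ`. -/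
theorem result {v q m Q : ℕ} (hv : 1 ≤ v) (hm : 2 ≤ m) (hQ : 2 * v * m ≤ Q * (m - 1))
    (hq : (v + Q).choose v < q) :
    ∃ Ψ : MvPolynomial (Fin q × Fin (v + 1)) ℂ, Ψ ≠ 0 ∧
      ∀ ℓ : Fin q → Fin (v + 1) → ℂ, MvPolynomial.eval (fun x => ℓ x.1 x.2) Ψ ≠ 0 →
      ∀ (K : Type) [Field K] [Algebra ℂ K] (N l c : ℕ)
        (E : Fin (l + 1) → IntermediateField ℂ K) (D : Fin (l + 1) → ℕ) (e : Fin l → ℕ)
        (r s : Fin c → ℕ) (y : Fin (N + 1) → K) (Δ Γ A : Place ℂ K → ℚ),
      IsPair y (D (Fin.last l) + ∑ j, r j) Δ → Effective y Γ → Effective y A →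
      PseudoEffective y (D (Fin.last l) + ∑ j, r j) (Δ - Γ) A →
      ∀ b : Fin (v + 1) → K, (∀ i, lf (ℓ i) b ≠ 0) → (∃ j, b j ≠ 0) → E 0 = RF ℂ b → 1 ≤ D 0 →
      HyperplaneMultiplicities (Relevant y (D (Fin.last l) + ∑ j, r j) Δ Γ A) Δ ℓ b m →
      IsOrbifoldTower (Relevant y (D (Fin.last l) + ∑ j, r j) Δ Γ A) (fun P => (Δ P : ℝ)) E D e e →
      ∀ w : ∀ j, Fin (s j) → ℚ,
      Fibres y (D (Fin.last l) + ∑ j, r j) Δ (Relevant y (D (Fin.last l) + ∑ j, r j) Δ Γ A)
        (E (Fin.last l)) r s w →
      Abundance y (D (Fin.last l) + ∑ j, r j) Δ Γ (D (Fin.last l)) r s w := by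
  obtain ⟨Ψ, hΨ, h⟩ := gen_base hv hm hQ hq
  refine ⟨Ψ, hΨ, fun ℓ hℓ K _ _ N l c E D e r s y Δ Γ A hy hΓ hA hps b hl hb hE0 hD0 hmult hT w
    hF => ?_⟩
  have hn : D (Fin.last l) + ∑ j, r j = D 0 + (∑ i, e i + ∑ j, r j) := by
    rw [Pool.Agent.X180.TP.dims fun i => (hT.2 i).2.1, add_assoc]
  refine pairs_gen hy hΓ hA hps hT (fun _ => rfl) hF fun lam' h0 => ?_
  rw [hE0] at h0
  refine h ℓ hℓ K (D 0) _ lam' hD0 (by rw [← hn]; exact hy.2.1) b hl hb
    (by rw [← hE0]; exact hT.1 0) _ _ (fun P hP => Rat.cast_nonneg.2 (hy.2.2.1 P hP.1))
    (fun P hP a μ ho i => ?_) h0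
  rcases hmult P hP a μ ho i with h1 | h1
  · exact Or.inl h1
  · right
    have h2 := (Rat.cast_le (K := ℝ)).2 h1
    push_cast at h2
    exact h2

end Pool.Agent.Results.MP_9a2ae6_ag.OrbifoldTowerPairs
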