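import Pool.Agent.X213.PairAb

/-!
# Abundance for pairs `(X, Δ)` with `X` generically finite over a product of projective spaces

Let `(X, Δ)` be a projective pair, `X` normal, `Δ` an effective `ℚ`-divisor (for instance klt or log
canonical), and `X ⇢ ∏ i, ℙ ^ (n i)` a generically finite dominant rational map, `i < r`. On the
factors hyperplanes `ℓ i k = 0`, `k < q i`, are given, arbitrary arrangements (general position is
not assumed). The number `v i k` is the multiplicity of the hyperplane `ℓ i k = 0` at a place of the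
function field `K` of `X`. Suppose:

* (lower bounds, at the prime divisors `P` of `X` only) for each factor let `g i` be one of the
  functions `(max v i k) / (n i + 2)` (the arrangement must not be reducible),
  `(max v i k) / (n i + 1)` (and does not consist of `n i + 2` hyperplanes in general position),
  or the (combinatorial) log discrepancy with respect to a log Calabi-Yau pair
  `(ℙ ^ (n i), ∑ w k H k)`. If not all `v i k` are zero at `P`, then `1 - Δ_P ≤ ∑ i, g i (v i)`; and
  `1 - Δ_P < ∑ i, g i (v i)` if the distinguished hyperplane `k0 i` of a factor `i ∈ I` has a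
  positive multiplicity at `P`;
* (upper bounds, at the places `P` over the prime divisors of the product, which may be exceptional
  over `X`; `m` is the ramification index and `α P ≥ 0` is a lower bound for the log discrepancy of
  `(X, Δ)` along `P`) for the factors `i ∉ I` there are weights `w i k ≥ 0` of the hyperplanes
  with the sum `n i + 1` such that `m ≤ α P + ∑ k, w i k * v i k` if not all `v i k`, `k < q i`, are
  zero; and `m = 1`, `α P ≥ 1` if all multiplicities `v i k` of all factors are zero and none of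
  finitely many functions `f ∈ F`, which are pulled back from the product of the factors `i ∈ I`,
  has a zero or a pole at `P`. So the ramification and the boundary over the divisors which come from
  the product of the factors `i ∈ I` are arbitrary.

Then `κ(K_X + Δ) = ν(K_X + Δ) = ∑ i ∈ I, n i` (`ν` is the growth of `h⁰(⌊m (K_X + Δ)⌋ + A)`, for any
effective integral divisor `A`; if `K_X + Δ` is nef, this is the numerical dimension). For klt pairs
with `K_X + Δ` nef this is the statement that `K_X + Δ` is semiample (Kawamata). Moreover the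
Campana-Peternell inequality holds: `κ(D) ≤ κ(K_X + Δ)` for the effective `ℚ`-divisors `D` such that
`K_X + Δ - D` is pseudo-effective.

The set `I` is arbitrary. The case `Δ = 0`, `X` canonical, `α = 1` of the first statement is
handed in as `MP_c2a5fc_ag/ProjectiveProductCovers.lean`. With a boundary there are many more
pairs: the coefficient of a component `P` of `Δ` over a hyperplane compensates small
multiplicities, and the singularities of `X` need not be canonical.

The proof: the lower bound for the Kodaira dimension is given by products of determinants of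
logarithmic derivatives of the linear forms, with a weight on the bases of each arrangement, which
may have poles along the boundary. For the upper bounds the traces to the product of the sections of
`m (K_X + Δ) + A` are polynomials whose degrees in the coordinates of the factors `i ∉ I` are
bounded, up to a denominator which does not depend on `m`; the orders of the sections at all places
of `K` are at least `m (α - 1)` up to a bounded term (`Pool.Agent.Y191.disc_bound`).

The definitions of the Kodaira dimension, the numerical dimension and the log discrepancy are those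
of `Pool.Agent.Y172` and `Pool.Agent.Y191`: `X` is given by the homogeneous coordinates `y` of its
generic point, with values in `K`; the prime divisors of `X` are places `P` of `K`, `P.ord` is the
order along `P`.
-/

set_option autoImplicit false

open FF Module MvPolynomial Pool.Agent.W602.Cov Pool.Agent.W602.GT Pool.Agent.TH152.AC
open Pool.Agent.Y172 Pool.Agent.Y191

namespace Pool.Agent.Results.MP_9a2ae6_ag.PairsOverProducts

section bounds

variable {n q : ℕ}

/-- In suitable linear coordinates `X 0, ..., X n` each of the hyperplanes is one of `X j = 0` or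
`X 0 + ... + X n = 0`. The arrangements with this property which are not reducible are, up to
repetitions, the arrangements of `n + 2` hyperplanes in general position. -/
def Simplicial (ℓ : Fin q → Form n) : Prop :=
  ∃ X : Basis (Fin (n + 1)) ℂ (Form n), ∀ i,
    (∃ c : ℂ, ℓ i = c • ∑ j, X j) ∨ ∃ (j : Fin (n + 1)) (c : ℂ), ℓ i = c • X j

/-- `(ℙ ^ n, ∑ w k H k)` is a log Calabi-Yau pair with rational weights: `w` is a rational convex
combination of the vectors with entries `1` for the `n + 1` hyperplanes of a basis `B` (that is, of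
`n + 1` linearly independent ones) and `0` for all others. -/
def LogCalabiYau (ℓ : Fin q → Form n) (w : Fin q → ℚ) : Prop :=
  ∃ p : Bases ℓ → ℕ, 0 < ∑ B, p B ∧ ∀ k, (∑ B, (p B : ℚ)) * w k =
    ∑ B, (p B : ℚ) * ((Finset.univ.filter fun a => B.1 a = k).card : ℚ)

/-- The maximum of the sums of the `v k` over the bases, minus the sum of the `w k * v k`. This is the
log discrepancy of the pair `(ℙ ^ n, ∑ w k H k)` at the toric divisors over the projective space along
which the hyperplanes have the multiplicities `v k`, and a lower bound for it at all divisors with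
these multiplicities. -/
noncomputable def logDiscrepancy (ℓ : Fin q → Form n) (w : Fin q → ℚ) (v : Fin q → ℕ) : ℚ :=
  ((Finset.univ.sup fun B : Bases ℓ => ∑ a, v (B.1 a) : ℕ) : ℚ) - ∑ k, w k * v k

/-- The lower bounds for one arrangement. -/
inductive Bound (ℓ : Fin q → Form n) : ((Fin q → ℕ) → ℚ) → Prop
  | irreducible : ¬ Reducible ℓ →
      Bound ℓ fun v => ((Finset.univ.sup v : ℕ) : ℚ) / ((n + 2 : ℕ) : ℚ)
  | notSimplicial : ¬ Reducible ℓ → ¬ Simplicial ℓ →
      Bound ℓ fun v => ((Finset.univ.sup v : ℕ) : ℚ) / ((n + 1 : ℕ) : ℚ)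
  | logCalabiYau (w : Fin q → ℚ) : LogCalabiYau ℓ w → Bound ℓ (logDiscrepancy ℓ w)

end bounds

/-- The value of a linear form at a vector over `K`. -/
noncomputable def form {n : ℕ} {K : Type} [Field K] [Algebra ℂ K] (φ : Form n)
    (x : Fin (n + 1) → K) : K := ∑ j, algebraMap ℂ K (φ (Pi.single j 1)) * x j

section divisors

variable {r : ℕ} {n q : Fin r → ℕ} {K : Type} [Field K] [Algebra ℂ K]

/-- The affine coordinates of the product of the projective spaces. -/
noncomputable def affine (x : ∀ i, Fin (n i + 1) → K) (b : (i : Fin r) × Fin (n i)) : K :=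
  x b.1 b.2.succ / x b.1 0

/-- The hyperplanes `ℓ i k` have the multiplicities `v i k` at `P`: their orders are `a i + v i k`,
where `a i` is the minimum of the orders of all linear forms on the `i`-th factor. -/
def Multiplicities (ℓ : ∀ i, Fin (q i) → Form (n i)) (x : ∀ i, Fin (n i + 1) → K)
    (P : Place ℂ K) (a : Fin r → ℤ) (v : ∀ i, Fin (q i) → ℕ) : Prop :=
  (∀ i (φ : Form (n i)), form φ (x i) = 0 ∨ a i ≤ P.ord (form φ (x i))) ∧
    (∀ i, ∃ φ : Form (n i), form φ (x i) ≠ 0 ∧ P.ord (form φ (x i)) = a i) ∧
    ∀ i k, P.ord (form (ℓ i k) (x i)) = a i + v i k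

/-- The degree of a polynomial in the affine coordinates of the `i`-th factor. -/
def degreeIn (i : Fin r) (f : MvPolynomial ((i : Fin r) × Fin (n i)) ℂ) : ℕ :=
  f.support.sup fun m => ∑ j : Fin (n i), m ⟨i, j⟩

/-- The place `P` of `K` lies over a prime divisor of the product of the projective spaces, with
ramification index `m`: over the hypersurface `p = 0`, `p` an irreducible polynomial in the affine
coordinates, or over the hyperplane at infinity `x i 0 = 0` of the `i`-th factor. -/
def LiesOver (x : ∀ i, Fin (n i + 1) → K) (P : Place ℂ K) (m : ℕ) : Prop :=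
  (∃ p : MvPolynomial ((i : Fin r) × Fin (n i)) ℂ, Irreducible p ∧
    P.ord (aeval (affine x) p) = m ∧ ∀ f, f ≠ 0 → 0 ≤ P.ord (aeval (affine x) f) ∧
      (P.ord (aeval (affine x) f) = 0 ↔ ¬ p ∣ f)) ∨
  (0 < m ∧ ∃ i, ∀ f, f ≠ 0 → P.ord (aeval (affine x) f) = - ((m : ℤ) * (degreeIn i f : ℤ)))

end divisors

/-- `(X, Δ)` is a projective pair of dimension `N`: `X` is normal, with generic point `y`, and `Δ` is
an effective `ℚ`-divisor. -/
def IsPair {K : Type} [Field K] [Algebra ℂ K] {M : ℕ} (y : Fin (M + 1) → K) (N : ℕ)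
    (Δ : Place ℂ K → ℚ) : Prop :=
  NormalModel y ∧ Algebra.trdeg ℂ K = N ∧ Effective y Δ

/-- `κ(K_X + Δ) = ν(K_X + Δ) = s`; the numerical dimension is computed with an effective integral
divisor `A`. -/
def Abundant {K : Type} [Field K] [Algebra ℂ K] {M : ℕ} (y : Fin (M + 1) → K) (N : ℕ)
    (Δ : Place ℂ K → ℚ) (s : ℕ) : Prop :=
  kodairaDim y N Δ = (s : WithBot ℕ) ∧
    ∀ A, Effective y A → Integral y A → numericalDim y N Δ A = (s : EReal)

/-- The Campana-Peternell inequality: if `D` is an effective `ℚ`-divisor on `X` such that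
`K_X + Δ - D` is pseudo-effective, then `κ(D) ≤ κ(K_X + Δ)`. -/
def CampanaPeternell {K : Type} [Field K] [Algebra ℂ K] {M : ℕ} (y : Fin (M + 1) → K) (N : ℕ)
    (Δ : Place ℂ K → ℚ) : Prop :=
  ∀ D : Place ℂ K → ℚ, Effective y D → PsefSub y N Δ D →
    ∀ h : ℕ, IitakaGe y D h → (h : WithBot ℕ) ≤ kodairaDim y N Δ

/-- **Abundance for pairs.** Let `(X, Δ)` be a projective pair of dimension `∑ i, n i` and
`X ⇢ ∏ i, ℙ ^ (n i)` a dominant rational map, let `g i` be lower bounds for the arrangements `ℓ i` and
let `I` be a set of factors. Suppose that at the prime divisors of `X` at which some multiplicity is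
positive `1 - Δ_P ≤ ∑ i, g i (v i)`, and `1 - Δ_P < ∑ i, g i (v i)` if the multiplicity of the
distinguished hyperplane of a factor in `I` is positive, and that at the places `P` over the prime
divisors of the product the log discrepancy of `(X, Δ)` is at least `α P ≥ 0` and the ramification
index `m` satisfies `m ≤ α P + ∑ k, w i k * v i k` for all `i ∉ I` with `v i ≠ 0`, for weights
`w i k ≥ 0` with the sum `n i + 1`, and `m = 1`, `α P ≥ 1` if all `v i k` are zero, up to finitely
many hypersurfaces which are pulled back from the product of the factors in `I`. Then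
`κ(K_X + Δ) = ν(K_X + Δ) = ∑ i ∈ I, n i`, and the Campana-Peternell inequality holds. -/
theorem result (r : ℕ) (hr : 1 ≤ r) (n q : Fin r → ℕ) (hn : ∀ i, 1 ≤ n i)
    (ℓ : ∀ i, Fin (q i) → Form (n i)) (hℓ : ∀ i k, ℓ i k ≠ 0)
    (g : ∀ i, (Fin (q i) → ℕ) → ℚ) (hg : ∀ i, Bound (ℓ i) (g i))
    (I : Finset (Fin r)) (k0 : ∀ i, Fin (q i)) (w : ∀ i, Fin (q i) → ℚ)
    (hw0 : ∀ i, i ∉ I → ∀ k, 0 ≤ w i k) (hw1 : ∀ i, i ∉ I → ∑ k, w i k = (n i : ℚ) + 1)
    (F : Finset (MvPolynomial ((i : Fin r) × Fin (n i)) ℂ)) (hF0 : ∀ f ∈ F, f ≠ 0)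
    (hF : ∀ f ∈ F, ∀ i, i ∉ I → degreeIn i f = 0)
    (K : Type) [Field K] [Algebra ℂ K] (M : ℕ) (y : Fin (M + 1) → K)
    (Δ α : Place ℂ K → ℚ) (hy : IsPair y (∑ i, n i) Δ)
    (x : ∀ i, Fin (n i + 1) → K) (hx : ∀ i, x i 0 ≠ 0)
    (hdom : IsTranscendenceBasis ℂ (affine x))
    (hlow : ∀ P, IsPrimeDivisor y P → ∀ (a : Fin r → ℤ) (v : ∀ i, Fin (q i) → ℕ),
      Multiplicities ℓ x P a v → (∃ i, v i ≠ 0) →
      1 - Δ P ≤ ∑ i, g i (v i) ∧ ((∃ i ∈ I, v i (k0 i) ≠ 0) → 1 - Δ P < ∑ i, g i (v i)))
    (hα : ∀ P m, LiesOver x P m → 0 ≤ α P ∧ LogDisc y (∑ i, n i) Δ P (α P))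
    (hup : ∀ P m, LiesOver x P m → ∀ (a : Fin r → ℤ) (v : ∀ i, Fin (q i) → ℕ),
      Multiplicities ℓ x P a v →
      ((∀ i, v i = 0) → (∀ f ∈ F, P.ord (aeval (affine x) f) = 0) → m = 1 ∧ 1 ≤ α P) ∧
        ∀ i, i ∉ I → v i ≠ 0 → (m : ℚ) ≤ α P + ∑ k, w i k * v i k) :
    Abundant y (∑ i, n i) Δ (∑ i ∈ I, n i) ∧ CampanaPeternell y (∑ i, n i) Δ := by
  have hwtd : ∀ i, Pool.Agent.TH756.PN.Wtd (ℓ i) (g i) := by
    intro i
    obtain ⟨G, hG⟩ : ∃ G, G = g i := ⟨_, rfl⟩
    have h1 := hg i
    rw [← hG] at h1 ⊢
    cases h1 with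
    | irreducible h2 =>
      exact Pool.Agent.TH756.PN.wtd_slack (by omega)
        (Pool.Agent.TH756.PR.slack_of_bnd (hn i) (hℓ i) h2 (Or.inl rfl))
        (Pool.Agent.W392.CG.span_top (hn i) (ℓ i) h2)
    | notSimplicial h2 h3 =>
      exact Pool.Agent.TH756.PN.wtd_slack (by omega)
        (Pool.Agent.TH756.PR.slack_of_bnd (hn i) (hℓ i) h2 (Or.inr ⟨rfl, Or.inr h3⟩))
        (Pool.Agent.W392.CG.span_top (hn i) (ℓ i) h2)
    | logCalabiYau w h2 => exact Pool.Agent.TH756.PN.BasePt.wtd h2
  obtain ⟨h1, h2⟩ := Pool.Agent.X213.PairAb.abundance hr hn rfl hy.1 hy.2.1 hy.2.2 hℓ g hwtd I k0 w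
    hw0 hw1 F hF0 hF hx hdom hlow hα hup
  refine ⟨h1, fun D hD hps h hκ => ?_⟩
  rw [h1.1]
  exact_mod_cast h2 D hD hps h hκ

end Pool.Agent.Results.MP_9a2ae6_ag.PairsOverProducts
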