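import Pool.Agent.X324.SA.Pair

set_option autoImplicit false

/-!
# Abundance for pairs on quotients `(T × F) / G` with a complex torus `T`

Let `X = (T × F) / G`, where `T = V / Λ` is a complex torus of any dimension, projective or not, `F` a
normal projective `ℚ`-factorial variety with free class group, and `G` a finite group which acts on
both factors; the action may have fixed points and fixed divisors, so that `K_X` may be negative in
the direction of `T`. Let `Δ` be an effective `ℚ`-divisor on `X`, not necessarily a sum of pullbacks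
from the two factors, and `L = O_X(m (K_X + Δ))` integral. The theorem says: if abundance holds for the
general fibre of `X → T / G`, which is a quotient of `F` with the restriction of `Δ`, then it holds for
`(X, Δ)`: `K_X + Δ` is nef if and only if it is semiample. The condition on the fibre holds for all
`Δ` if nef classes of `F` are semiample, for instance if `F` is a Mori dream space, and for klt pairs
with `dim F ≤ 3`.

The proof: the class of `L` is a pair of a hermitian form `H` on `V` and a class of `F`. A norm of the
section which defines `m Δ` gives a meromorphic section of the line bundle `L'` on `V / Γ` given by a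
power of the factor of automorphy of `L`, with poles only along mirrors of `Γ`. Let `K` be the kernel of
`H` and `N` the group of the linear parts of `Γ` which act trivially on `V / K`; the meromorphic
section is holomorphic on general translates of `K ^ N`, and so `L'` is torsion in the direction of `K`
(library, `semiample_of_mero`) and induced by an ample line bundle on a torus quotient. This has a
globally generated power, because the flat line bundles on a torus quotient are, up to torsion, given
by translations (`ample_gg`). Its sections are multiplied with norms of sections on `F`.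

`Cl`, `Semistable`, `SemiampleF`, `Grp`, `IsQuotient`, `Sheaf`, `coneHull` and `vert` are defined in
`Pool.Agent.X324.CF.Defs`; `Sheaf.pow` and `Sheaf.tensor` in `Pool.Agent.X324.CF.Shf`; `IsCoxRing` and
`real` in `Pool.Agent.X324.CG.Defs`; `IsCanonicalSheaf` in `Pool.Agent.X324.SA.PairDefs`;
`IsRamification` in `Pool.Agent.TH735.AQ.MirDefs`; `IsNefForm` in `Pool.Agent.W594.SYZ.TQDefs`.
-/

namespace Pool.Agent.Results.MP_9a2ae6_ag.ProductQuotientPairs

open Pool.Agent.W594.SYZ2 Pool.Agent.X324.CF
open Pool.Agent.X324.CG (IsCoxRing real)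
open Pool.Agent.X324.SA (IsCanonicalSheaf)

/-- The nef cone of `F`: the closure of the cone spanned by the semiample classes. -/
def nefConeF {R : Type*} [CommRing R] [Algebra ℂ R] {ρ : ℕ} (𝒜 : Cl ρ → Submodule ℂ R)
    (u : Cl ρ) : Set (Fin ρ → ℝ) :=
  closure (coneHull {b | ∃ β, SemiampleF 𝒜 u β ∧ b = real β})

/-- The sheaf `𝓛` with Chern form `H` on `X = (V × F) / Γ` is nef: the form `H` is semidefinite and
the degree is nef on `F`. (The Kähler classes on `T × F` are the sums of the pullbacks of the Kähler
classes of the factors, so that the nef cone of `T × F` is the product of the cones of `T` and `F`.) -/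
structure IsNef {V R : Type*} [NormedAddCommGroup V] [NormedSpace ℂ V] [CommRing R] [Algebra ℂ R]
    {ρ : ℕ} {𝒜 : Cl ρ → Submodule ℂ R} {Γ : Grp V R} (u : Cl ρ) (𝓛 : Sheaf 𝒜 Γ)
    (H : V → V → ℂ) : Prop where
  form : IsNefForm H
  deg : real 𝓛.deg ∈ nefConeF 𝒜 u

/-- Abundance for a pair on `F` (or a quotient of `F`) for which the class of `m (K + Δ)` on `F` is
`δ`: if `δ` is nef then it is semiample. -/
def Abundance {R : Type*} [CommRing R] [Algebra ℂ R] {ρ : ℕ} (𝒜 : Cl ρ → Submodule ℂ R)
    (u δ : Cl ρ) : Prop :=
  real δ ∈ nefConeF 𝒜 u → SemiampleF 𝒜 u δ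

/-- Let `X = (V × F) / Γ` be the quotient of the product of a complex torus and `F` by a finite group,
`𝒦` the canonical sheaf of `X`, and `Δ` the effective divisor such that `m Δ` is the divisor of the
section `B` of the sheaf `ℬ`. Suppose that abundance holds for the general fibre of the map from `X` to
the quotient of the torus; the class of `m (K + Δ)` on `F` is `m K + deg ℬ`. Then
`O_X(m (K_X + Δ))` is nef if and only if it is semiample. -/
theorem result {V R : Type*} [NormedAddCommGroup V] [NormedSpace ℂ V] [FiniteDimensional ℂ V]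
    [CommRing R] [IsDomain R] [Algebra ℂ R] {ρ : ℕ}
    (𝒜 : Cl ρ → Submodule ℂ R) [GradedAlgebra 𝒜] (u : Cl ρ) (hF : IsCoxRing 𝒜 u)
    (hfin : ∀ β, FiniteDimensional ℂ (𝒜 β)) (Γ : Grp V R) (hX : IsQuotient 𝒜 u Γ)
    (K : Cl ρ) (𝒦 : Sheaf 𝒜 Γ) (h𝒦 : IsCanonicalSheaf 𝒦 K)
    (m : ℕ) (ℬ : Sheaf 𝒜 Γ) (B : V → R) (hB : ℬ.IsSection B) (hB0 : ∃ v, B v ≠ 0)
    (hfib : Abundance 𝒜 u (m • K + ℬ.deg))
    (H : V → V → ℂ) (hc : ((𝒦.pow m).tensor ℬ).IsChern H) :
    IsNef u ((𝒦.pow m).tensor ℬ) H ↔ ((𝒦.pow m).tensor ℬ).IsSemiample u := by
  have hdeg : ((𝒦.pow m).tensor ℬ).deg = m • K + ℬ.deg := by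
    change m • 𝒦.deg + ℬ.deg = _
    rw [h𝒦.deg]
  constructor
  · rintro ⟨h1, h2⟩
    refine Pool.Agent.X324.SA.semiample_pair hX hfin h𝒦 hB hB0 m hc h1 ?_
    rw [hdeg] at h2 ⊢
    exact hfib h2
  · intro h
    refine ⟨Pool.Agent.X324.SA.nef_of_semiample hX hF.point hc h, subset_closure ?_⟩
    exact hull_mem ⟨_, Pool.Agent.X324.SA.deg_of_semiample h, rfl⟩

end Pool.Agent.Results.MP_9a2ae6_ag.ProductQuotientPairs
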