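import Pool.Agent.X325.OB.TowC

/-!
# Abundance for klt pairs over towers over log canonical arrangements

Let `(X, Δ)` be a projective pair, `Γ` an effective `ℚ`-divisor such that `K_X + Δ - Γ` is
pseudo-effective (for instance `Γ = 0`), and

  `X ⇢ W_l ⇢ ... ⇢ W_1 ⇢ W_0 = P^{n_1} × ... × P^{n_m}`, `l ≥ 0`,

dominant rational maps. A prime divisor of `X` is *negligible* if it is in the support of `Γ`, or in
the base locus of all `m (K_X + Δ + η A)`, for small `η ≥ 0` (`A` an effective divisor). Suppose:

* (the base) in each factor there are hyperplanes `ℓ i k = 0`, in any position, with weights `wt i k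
  ≥ 0` such that the arrangement is log canonical (the sum of the weights of hyperplanes with a
  common point is at most the codimension of their intersection) and `∑ k, wt i k ≥ n i + 1`: a log
  Calabi-Yau arrangement if `∑ k, wt i k = n i + 1`, and one of log general type otherwise. If the
  `v i k` are the multiplicities of the hyperplanes at a prime divisor `P` of `X`, not negligible,
  not all zero, then `1 - Δ_P ≤ ∑ i, (mx_i - ∑ k, wt i k * v i k)`, where `mx_i` is the greatest sum
  of `n i + 1` of the `v i k` whose hyperplanes have no common point, with strict inequality if a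
  distinguished hyperplane `k0 i` of a log Calabi-Yau factor `i` has a positive multiplicity at `P`;
* (the steps of the tower) for each `i < l` one of the following, with conditions only at the prime
  divisors `P` of `X` which are not negligible and have a coefficient `Δ_P < 1`:
  * (orbifold) the fibres of `W_{i+1}` over `W_i`, *with the boundary `Δ` and the multiplicities of
    the fibres of `X` over `W_{i+1}`*, correspond to moving log canonical arrangements, of log
    general type (`OrbifoldFibres`);
  * (constant) the fibres of `W_{i+1}` over `W_i`, with the boundary `Δ` and the multiplicities of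
    the fibres of `X` over `W_{i+1}`, correspond to one orbifold `(V_i, a_i)` of general type: there
    are a variety `X'` with a generically finite map `X' ⇢ X` and a rational map `X' ⇢ V_i` which is
    constant on the fibres of `X' ⇢ W_{i+1}` and dominant on the fibres of `X' ⇢ W_i`; `a_i (p)` is
    a nonnegative function (the log discrepancy) of places of `V_i`, and at the places `Q` over `P`
    (with ramification index `ε`) which lie over `p` (with ramification index `ν`) one has `ε (1 -
    Δ_P) ≤ ν a_i (p)` (`ConstantFibres`). For instance `V_i` is a smooth projective variety, `a_i =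
    1`, and the fibres of `W_{i+1}` over `W_i` are birational to `V_i`;
* (the fibres of `X` over `W_l`, of any log Kodaira dimension) there is a correspondence `X'`
  between `X` and a relative product `P^{r_1} × ... × P^{r_c}` over `W_l`, with log canonical moving
  hyperplane arrangements with weights in `[0, 1]`, with conditions on the multiplicities at the
  prime divisors of `X`, not negligible, with `Δ_P < 1`, which dominate `W_l`, and at the places
  over the prime divisors of the product (`Fibres`).

Then `∑ k, w j k ≥ r_j + 1` for all `j` (for the fibres over `W_l`), and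

  `κ(K_X + Δ') = ν(K_X + Δ') = dim W_l + λ`

for all `Δ'` which are equal to `Δ` outside of `Γ` and larger than `Δ - Γ` along `Γ`, where `λ` is
the sum of the `r_j` with `∑ k, w j k > r_j + 1`.

If `(X, Δ')` is klt and `K_X + Δ'` is nef (for instance `Γ = 0`, `Δ' = Δ`) then, by Kawamata's
theorem, `K_X + Δ'` is semiample. So Q1 holds for these pairs.

The definitions are those of `Pool/Agent/X180/OP/AbDefs`, `X180/OC/Defs` and
`Pool/Agent/Y191/LcForm`, `LcLow`.
-/

set_option autoImplicit false

open FF Pool.Agent.W602.GT Pool.Agent.Y172 Pool.Agent.Y191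
open Pool.Agent.X180.OP (IsPair Fibres PseudoEffective Relevant Abundance)
open Pool.Agent.X180.OC (IsTower)

namespace Pool.Agent.Results.MP_9a2ae6_ag.TowersOverArrangements

variable {m : ℕ} {n q : Fin m → ℕ}

/-- The base: the hyperplanes `ℓ i k = 0` in the projective space of dimension `n i` have weights
`wt i k ≥ 0` with sum at least `n i + 1`, and the arrangements are log canonical (`LcArr`, over the
field of constants). -/
def IsBase (ℓ : ∀ i, Fin (q i) → Fin (n i + 1) → ℂ) (wt : ∀ i, Fin (q i) → ℚ) : Prop :=
  (∀ i, (∀ k, 0 ≤ wt i k) ∧ (n i + 1 : ℚ) ≤ ∑ k, wt i k) ∧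
    LcArr (⊥ : IntermediateField ℂ ℂ) ℓ wt

/-- The affine coordinates `x i (j + 1) / x i 0` of the points with the homogeneous coordinates
`x i`. -/
def affine {K : Type} [Field K] (x : ∀ i, Fin (n i + 1) → K) (b : (i : Fin m) × Fin (n i)) : K :=
  x b.1 b.2.succ / x b.1 0

/-- The multiplicities over the base, at the prime divisors `P ∈ S` of `X`: if the hyperplanes `ℓ i
k` have the multiplicities `v i k` at `P` (their orders are `a i + v i k`, where `a i` is the
minimum of the orders of the coordinates `x i j`), not all zero, then `1 - Δ P ≤ ∑ i, (mx_i - ∑ k,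
wt i k * v i k)`, with strict inequality if the multiplicity of the distinguished hyperplane `k0 i`
is positive for some `i` with `∑ k, wt i k = n i + 1`. -/
def Multiplicities {K : Type} [Field K] [Algebra ℂ K] (S : Set (Place ℂ K)) (Δ : Place ℂ K → ℚ)
    (ℓ : ∀ i, Fin (q i) → Fin (n i + 1) → ℂ) (wt : ∀ i, Fin (q i) → ℚ)
    (x : ∀ i, Fin (n i + 1) → K) (k0 : ∀ i, Fin (q i)) : Prop :=
  ∀ P ∈ S, ∀ (a : Fin m → ℤ) (v : ∀ i, Fin (q i) → ℕ),
    (∀ i, MOrd P (fun k j => algebraMap ℂ K (ℓ i k j)) (x i) (a i) (v i)) → (∃ i, v i ≠ 0) →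
    1 - Δ P ≤ ∑ i, ((mx ℓ i (v i) : ℚ) - ∑ k, wt i k * v i k) ∧
      ((∃ i, ∑ k, wt i k = (n i + 1 : ℚ) ∧ v i (k0 i) ≠ 0) →
        1 - Δ P < ∑ i, ((mx ℓ i (v i) : ℚ) - ∑ k, wt i k * v i k))

/-- **Abundance.** Let `ℓ i` be log canonical arrangements of hyperplanes with weights `wt i k` with
sums at least `n i + 1`, as in `IsBase`. Let `(X, Δ)` be a projective pair, `Γ` and `A` effective
`ℚ`-divisors such that `K_X + Δ - Γ` is pseudo-effective (tested with `A`), and `X ⇢ W_l ⇢ ... ⇢
W_0` a tower over the product `W_0` of the projective spaces, given by homogeneous coordinates `x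
i`, whose steps (orbifold fibrations or constant orbifolds) are of (log) general type. Suppose that
the condition `Multiplicities` holds at the relevant prime divisors of `X`, and let the fibres of
`X` over `W_l` be as in `Fibres`. Then `r j + 1 ≤ ∑ i, w j i` for all `j`, and the Kodaira dimension
and the numerical dimension of `K_X + Δ'` are `dim W_l` plus the sum of the `r j` with `r j + 1 < ∑
i, w j i`, for all `Δ'` which are equal to `Δ` outside of `Γ` and larger than `Δ - Γ` along `Γ`. -/
theorem result (ℓ : ∀ i, Fin (q i) → Fin (n i + 1) → ℂ) (wt : ∀ i, Fin (q i) → ℚ)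
    (hℓ : IsBase ℓ wt) (k0 : ∀ i, Fin (q i))
    (K : Type) [Field K] [Algebra ℂ K] (N l c : ℕ)
    (E : Fin (l + 1) → IntermediateField ℂ K) (D : Fin (l + 1) → ℕ) (e : Fin l → ℕ)
    (r s : Fin c → ℕ) (y : Fin (N + 1) → K) (Δ Γ A : Place ℂ K → ℚ)
    (hy : IsPair y (D (Fin.last l) + ∑ j, r j) Δ) (hΓ : Effective y Γ)
    (hA : Effective y A) (hps : PseudoEffective y (D (Fin.last l) + ∑ j, r j) (Δ - Γ) A)
    (x : ∀ i, Fin (n i + 1) → K)
    (hx0 : ∀ i, x i 0 ≠ 0) (hind : AlgebraicIndependent ℂ (affine x))
    (hE0 : E 0 = IntermediateField.adjoin ℂ (Set.range (affine x)))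
    (hm : Multiplicities (Relevant y (D (Fin.last l) + ∑ j, r j) Δ Γ A) Δ ℓ wt x k0)
    (hT : IsTower {P | P ∈ Relevant y (D (Fin.last l) + ∑ j, r j) Δ Γ A ∧ Δ P < 1}
      (fun P => (Δ P : ℝ)) E D e e)
    (w : ∀ j, Fin (s j) → ℚ)
    (hF : Fibres y (D (Fin.last l) + ∑ j, r j) Δ
      {P | P ∈ Relevant y (D (Fin.last l) + ∑ j, r j) Δ Γ A ∧ Δ P < 1} (E (Fin.last l)) r s w) :
    Abundance y (D (Fin.last l) + ∑ j, r j) Δ Γ (D (Fin.last l)) r s w :=
  Pool.Agent.X325.OB.lc_tow_ab (fun i => (hℓ.1 i).1) (fun i => (hℓ.1 i).2) hℓ.2 hy hΓ hA hps hx0 hind hE0 k0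
    hm hT hF

end Pool.Agent.Results.MP_9a2ae6_ag.TowersOverArrangements
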